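import Mathlib

set_option autoImplicit false

namespace Pool.Agent.Y407.LB.Boch

open Equiv Equiv.Perm

variable {α : Type} [Fintype α] [DecidableEq α]

/-- Bochert: a group of permutations without 3-cycles has a base with at most half of the points. -/
theorem exists_base (K : Subgroup (Perm α)) (hK : ∀ σ ∈ K, ¬ σ.IsThreeCycle) :
    ∃ Δ : Finset α, 2 * Δ.card ≤ Fintype.card α ∧
      ∀ k ∈ K, (∀ x ∈ Δ, k x = x) → k = 1 := by
  classical
  -- minimal base
  have hex : ∃ n : ℕ, ∃ Δ : Finset α, Δ.card = n ∧ ∀ k ∈ K, (∀ x ∈ Δ, k x = x) → k = 1 := by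
    refine ⟨_, Finset.univ, rfl, ?_⟩
    intro k _ hk
    ext x
    exact hk x (Finset.mem_univ x)
  obtain ⟨Δ, hcard, hΔ⟩ := Nat.find_spec hex
  have hmin : ∀ Δ' : Finset α, Δ'.card < Δ.card →
      ∃ k ∈ K, (∀ x ∈ Δ', k x = x) ∧ k ≠ 1 := by
    intro Δ' hlt
    by_contra hcon
    push Not at hcon
    rw [hcard] at hlt
    exact Nat.find_min hex hlt ⟨Δ', rfl, hcon⟩
  refine ⟨Δ, ?_, hΔ⟩
  by_contra hlt
  push Not at hlt
  have hc : (Δᶜ).card < Δ.card := by
    rw [Finset.card_compl]; omega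
  obtain ⟨x, hxK, hx, hx1⟩ := hmin _ hc
  have hx' : ∀ t, t ∉ Δ → x t = t := fun t ht => hx t (by rw [Finset.mem_compl]; exact ht)
  obtain ⟨o, ho⟩ : ∃ o, x o ≠ o := by
    by_contra hcon
    push Not at hcon
    exact hx1 (Equiv.ext hcon)
  have hoΔ : o ∈ Δ := by
    by_contra h
    exact ho (hx' o h)
  obtain ⟨y, hyK, hy, hy1⟩ := hmin (Δ.erase o) (Finset.card_erase_lt_of_mem hoΔ)
  have hyo : y o ≠ o := by
    intro h
    apply hy1
    apply hΔ y hyK
    intro t ht
    by_cases hto : t = o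
    · rw [hto, h]
    · exact hy t (Finset.mem_erase.2 ⟨hto, ht⟩)
  set p := x o with hp
  set q := y o with hq
  have hqΔ : q ∉ Δ := by
    intro h
    have h2 := hy q (Finset.mem_erase.2 ⟨hyo, h⟩)
    exact hyo (y.injective h2)
  have hpΔ : p ∈ Δ := by
    by_contra h
    have h2 := hx' p h
    exact ho (x.injective h2)
  have hpq : p ≠ q := fun h => hqΔ (h ▸ hpΔ)
  have hdis : Disjoint ((swap o q) * y) x⁻¹ := by
    intro t
    by_cases ht : t ∈ Δ
    · left
      rw [Perm.mul_apply]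
      by_cases hto : t = o
      · rw [hto, ← hq, swap_apply_right]
      · rw [hy t (Finset.mem_erase.2 ⟨hto, ht⟩), swap_apply_of_ne_of_ne hto]
        intro h
        exact hqΔ (h ▸ ht)
    · right
      rw [Perm.inv_eq_iff_eq]
      exact (hx' t ht).symm
  have hcomm := hdis.commute
  have hconj : y * x⁻¹ * y⁻¹ = swap o q * x⁻¹ * swap o q := by
    have h1 : swap o q * y * x⁻¹ = x⁻¹ * (swap o q * y) := hcomm
    have h2 : y * x⁻¹ = swap o q * x⁻¹ * swap o q * y := by
      calc y * x⁻¹ = swap o q * (swap o q * y * x⁻¹) := by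
            simp only [mul_assoc, swap_mul_self_mul]
        _ = swap o q * (x⁻¹ * (swap o q * y)) := by rw [h1]
        _ = _ := by simp only [mul_assoc]
    rw [h2, mul_inv_cancel_right]
  have hcK : x * (y * x⁻¹ * y⁻¹) ∈ K :=
    K.mul_mem hxK (K.mul_mem (K.mul_mem hyK (K.inv_mem hxK)) (K.inv_mem hyK))
  have hval : x * (y * x⁻¹ * y⁻¹) = swap q p * swap q o := by
    rw [hconj]
    have h1 : x * swap o q * x⁻¹ = swap (x o) (x q) := (swap_apply_apply x o q).symm
    calc x * (swap o q * x⁻¹ * swap o q) = (x * swap o q * x⁻¹) * swap o q := by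
          simp only [mul_assoc]
      _ = swap p q * swap o q := by rw [h1, ← hp, hx' q hqΔ]
      _ = _ := by rw [swap_comm p q, swap_comm o q]
  rw [hval] at hcK
  exact hK _ hcK (isThreeCycle_swap_mul_swap_same hpq.symm hyo ho)

/-- if no 3-cycle fixes a point then the set acted on is large -/
theorem card_bound {W : Type} [Finite W] (π : Perm α →* Perm W) (w : W)
    (h3 : ∀ σ : Perm α, σ.IsThreeCycle → π σ w ≠ w) :
    (Fintype.card α - Fintype.card α / 2).factorial ≤ Nat.card W := by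
  classical
  let K : Subgroup (Perm α) := (MulAction.stabilizer (Perm W) w).comap π
  have hmem : ∀ σ, σ ∈ K ↔ π σ w = w := fun σ => Iff.rfl
  obtain ⟨Δ, hΔ, hb⟩ := exists_base K (fun σ hσ h => h3 σ h ((hmem σ).1 hσ))
  have hinj : Function.Injective
      (fun σ : Perm {x : α // x ∉ Δ} => π (Perm.ofSubtype σ) w) := by
    intro σ τ hστ
    have h4 : π (Perm.ofSubtype σ) w = π (Perm.ofSubtype τ) w := hστ
    have h5 : (Perm.ofSubtype τ)⁻¹ * Perm.ofSubtype σ ∈ K := by
      rw [hmem, map_mul, map_inv, Perm.mul_apply, h4]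
      exact Equiv.symm_apply_apply _ w
    have h6 := hb _ h5 (by
      intro t ht
      have hnt : ¬ (t ∉ Δ) := fun h => h ht
      rw [Perm.mul_apply, Perm.ofSubtype_apply_of_not_mem σ hnt, Perm.inv_eq_iff_eq,
        Perm.ofSubtype_apply_of_not_mem τ hnt])
    exact (Perm.ofSubtype_injective (inv_mul_eq_one.1 h6)).symm
  have h7 := Nat.card_le_card_of_injective _ hinj
  rw [Nat.card_eq_fintype_card, Fintype.card_perm] at h7
  refine le_trans (Nat.factorial_le ?_) h7
  rw [Fintype.card_subtype_compl, Fintype.card_coe]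
  omega

end Pool.Agent.Y407.LB.Boch
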