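import Pool.Agent.Y407.LB.Loc

set_option autoImplicit false

namespace Pool.Agent.Y407.LB.Deg

open Pool.Agent.Results.MP_fed0c4_co.Superlinear Pool.Agent.Y407.LB.Loc
open DihedralGroup

/-- the link of a decorated system, as a table -/
def TTb {n : ℕ} (ty : Fin n → Fin 4) (fd : Fin n → DihedralGroup 3) (i j : Fin n) : Bool :=
  match dt (ty j) (ty i) with
  | none => false
  | some u => decide (∃ k, ty k = u ∧ fd k = fd j * (fd i)⁻¹)

/-- number of walks in the link -/
def wkb {n : ℕ} (T : Fin n → Fin n → Bool) : ℕ → Fin n → ℕ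
  | 0, _ => 1
  | k + 1, i => ∑ j, if T i j then wkb T k j else 0

/-- decorations of `1, a, b, b⁻¹` by elements of the dihedral group of order 6 -/
structure Core (n : ℕ) where
  ty : Fin n → Fin 4
  fd : Fin n → DihedralGroup 3
  iv : Fin n → Fin n
  inj : ∀ i j, ty i = ty j → fd i = fd j → i = j
  ivs : ∀ i, (ty i = 0 ∧ ty (iv i) = 0 ∨ ty i = 1 ∧ ty (iv i) = 1 ∨
    ty i = 2 ∧ ty (iv i) = 3 ∨ ty i = 3 ∧ ty (iv i) = 2) ∧ fd (iv i) = (fd i)⁻¹
  ne1 : ∀ i, ¬ (ty i = 0 ∧ fd i = 1)
  c : Fin 3 → Fin n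
  tc : ∀ j, ty (c j) = j.succ
  fc : ∀ j, fd (c j) = 1
  ic : ∀ j, iv (c j) = c ((![0, 2, 1] : Fin 3 → Fin 3) j)
  full : ∀ f : DihedralGroup 3, ∃ u : List (Fin n), (∀ i ∈ u, ty i = 0) ∧ (u.map fd).prod = f
  wk : ∀ i j, wkb (TTb ty fd) 3 i = wkb (TTb ty fd) 3 j → i = j
  irr : ∀ i, wkb (TTb ty fd) 2 i = wkb (TTb ty fd) 1 i * wkb (TTb ty fd) 1 i →
    wkb (TTb ty fd) 3 i = wkb (TTb ty fd) 1 i * (wkb (TTb ty fd) 1 i * wkb (TTb ty fd) 1 i) →
    wkb (TTb ty fd) 1 i = 0

namespace Core

variable {n : ℕ} (K : Core n) {A : Type} [Group A] (a b : A)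

/-- generators -/
def g (i : Fin n) : A × DihedralGroup 3 := (vl a b (K.ty i), K.fd i)

variable {a b}

lemma TT_iff (h : Gen a b) (i j : Fin n) :
    (TTb K.ty K.fd i j = true) ↔ ∃ k, K.g a b j = K.g a b k * K.g a b i := by
  have e1 : ∀ k, K.g a b j = K.g a b k * K.g a b i ↔
      (dt (K.ty j) (K.ty i) = some (K.ty k) ∧ K.fd k = K.fd j * (K.fd i)⁻¹) := by
    intro k
    rw [← h.dt_iff, ← mul_inv_eq_iff_eq_mul]
    constructor
    · intro e
      exact ⟨congrArg Prod.fst e, (congrArg Prod.snd e).symm⟩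
    · rintro ⟨e2, e3⟩
      exact Prod.ext e2 e3.symm
  simp only [e1]
  unfold TTb
  split
  · rename_i hd
    rw [hd]
    constructor
    · intro h2; exact absurd h2 (by decide)
    · rintro ⟨k, h2, -⟩; exact absurd h2 (by simp)
  · rename_i u hd
    rw [hd, decide_eq_true_iff]
    constructor
    · rintro ⟨k, h2, h3⟩; exact ⟨k, by rw [h2], h3⟩
    · rintro ⟨k, h2, h3⟩; exact ⟨k, (Option.some.inj h2).symm, h3⟩

/-- the generating system -/
def toCS (h : Gen a b)
    (htop : ∀ x : A × DihedralGroup 3, ∃ u : List (Fin n), (u.map (K.g a b)).prod = x) :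
    CS (A × DihedralGroup 3) n where
  gen := K.g a b
  iv := K.iv
  hiv := by
    intro i
    obtain ⟨h1, h2⟩ := K.ivs i
    apply Prod.ext
    · show vl a b (K.ty (K.iv i)) = (vl a b (K.ty i))⁻¹
      rcases h1 with ⟨e1, e2⟩ | ⟨e1, e2⟩ | ⟨e1, e2⟩ | ⟨e1, e2⟩
      · rw [e1, e2]; exact inv_one.symm
      · rw [e1, e2]; exact h.ai.symm
      · rw [e1, e2]; rfl
      · rw [e1, e2]; exact (inv_inv b).symm
    · exact h2
  one := by
    intro i hi
    apply K.ne1 i
    refine ⟨?_, congrArg Prod.snd hi⟩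
    apply h.vl_inj
    exact congrArg Prod.fst hi
  inj := by
    intro i j hij
    exact K.inj i j (h.vl_inj (congrArg Prod.fst hij)) (congrArg Prod.snd hij)
  top := htop

/-- values of words -/
def rg : Submonoid (A × DihedralGroup 3) where
  carrier := {x | ∃ u : List (Fin n), (u.map (K.g a b)).prod = x}
  one_mem' := ⟨[], rfl⟩
  mul_mem' := by
    rintro _ _ ⟨u, rfl⟩ ⟨v, rfl⟩
    exact ⟨u ++ v, by rw [List.map_append, List.prod_append]⟩

lemma g_c (j : Fin 3) : K.g a b (K.c j) = (vl a b j.succ, 1) := by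
  unfold g
  rw [K.tc, K.fc]

lemma htop (hgen : Submonoid.closure {a, b, b⁻¹} = ⊤) (x : A × DihedralGroup 3) :
    ∃ u : List (Fin n), (u.map (K.g a b)).prod = x := by
  have h1 : ∀ y : A, (y, (1 : DihedralGroup 3)) ∈ K.rg (a := a) (b := b) := by
    intro y
    have hy : y ∈ Submonoid.closure ({a, b, b⁻¹} : Set A) := by rw [hgen]; trivial
    have hle : Submonoid.closure ({a, b, b⁻¹} : Set A) ≤
        (K.rg (a := a) (b := b)).comap (MonoidHom.inl A (DihedralGroup 3)) := by
      rw [Submonoid.closure_le]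
      have e : ∀ j : Fin 3, (vl a b j.succ, (1 : DihedralGroup 3)) ∈ K.rg (a := a) (b := b) :=
        fun j => ⟨[K.c j], by rw [List.map_cons, List.map_nil, List.prod_singleton, K.g_c]⟩
      rintro _ (rfl | rfl | rfl)
      · exact e 0
      · exact e 1
      · exact e 2
    exact hle hy
  have h2 : ∀ f : DihedralGroup 3, ((1 : A), f) ∈ K.rg (a := a) (b := b) := by
    intro f
    obtain ⟨u, hu, hf⟩ := K.full f
    refine ⟨u, ?_⟩
    rw [← hf]
    clear hf
    induction u with
    | nil => rfl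
    | cons i u ih =>
      rw [List.map_cons, List.prod_cons, ih (fun j hj => hu j (List.mem_cons_of_mem _ hj)),
        List.map_cons, List.prod_cons]
      unfold g
      rw [hu i List.mem_cons_self]
      show (1 * 1, _) = _
      rw [one_mul]
  have h3 := (K.rg (a := a) (b := b)).mul_mem (h1 x.1) (h2 x.2)
  rw [Prod.mk_mul_mk, one_mul, mul_one] at h3
  exact h3

end Core

/-! ### product with a cyclic group and all its non-identity elements -/

section ext

variable {B : Type} [Group B] {n : ℕ} (S : CS B n) (m : ℕ)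

/-- the cyclic group of order `m + 1` -/
abbrev Cy (m : ℕ) : Type := Multiplicative (ZMod (m + 1))

/-- its non-identity elements -/
def yy (m : ℕ) (j : Fin m) : Cy m := Multiplicative.ofAdd (j.succ : Fin (m + 1))

lemma yy_ne (j : Fin m) : yy m j ≠ 1 := by
  intro h
  have h2 : (j.succ : Fin (m + 1)) = (0 : Fin (m + 1)) := h
  exact Fin.succ_ne_zero j h2

lemma yy_inj : Function.Injective (yy m) := by
  intro i j h
  have h2 : (i.succ : Fin (m + 1)) = (j.succ : Fin (m + 1)) := h
  exact Fin.succ_injective _ h2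

lemma yy_surj (x : Cy m) (hx : x ≠ 1) : ∃ j, yy m j = x := by
  have h2 : (Multiplicative.toAdd x : Fin (m + 1)) ≠ 0 := hx
  obtain ⟨j, hj⟩ := Fin.exists_succ_eq.2 h2
  exact ⟨j, hj⟩

/-- generators of the product -/
def eg (i : Fin (n + m)) : B × Cy m :=
  Fin.addCases (motive := fun _ => B × Cy m) (fun i => (S.gen i, 1)) (fun j => (1, yy m j)) i

lemma eg_l (i : Fin n) : eg S m (Fin.castAdd m i) = (S.gen i, 1) := by
  unfold eg; rw [Fin.addCases_left]

lemma eg_r (j : Fin m) : eg S m (Fin.natAdd n j) = (1, yy m j) := by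
  unfold eg; rw [Fin.addCases_right]

lemma exists_iv (j : Fin m) : ∃ j', yy m j' = (yy m j)⁻¹ :=
  yy_surj m _ (inv_ne_one.2 (yy_ne m j))

lemma ext_top (x : B × Cy m) : ∃ u : List (Fin (n + m)), (u.map (eg S m)).prod = x := by
  obtain ⟨x, y⟩ := x
  obtain ⟨u, hu⟩ := S.top x
  have h1 : ((u.map (Fin.castAdd m)).map (eg S m)).prod = (x, 1) := by
    rw [← hu]
    clear hu
    induction u with
    | nil => rfl
    | cons i u ih =>
      simp only [List.map_cons, List.prod_cons] at ih ⊢
      rw [ih, eg_l, Prod.mk_mul_mk, one_mul]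
  by_cases hy : y = 1
  · exact ⟨_, by rw [h1, hy]⟩
  · obtain ⟨j, hj⟩ := yy_surj m y hy
    refine ⟨u.map (Fin.castAdd m) ++ [Fin.natAdd n j], ?_⟩
    rw [List.map_append, List.prod_append, h1, List.map_cons, List.map_nil, List.prod_singleton,
      eg_r, hj, Prod.mk_mul_mk, mul_one, one_mul]

/-- inverses in the product -/
noncomputable def eiv (i : Fin (n + m)) : Fin (n + m) :=
  Fin.addCases (motive := fun _ => Fin (n + m)) (fun i => Fin.castAdd m (S.iv i))
    (fun j => Fin.natAdd n (exists_iv m j).choose) i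

lemma eiv_l (i : Fin n) : eiv S m (Fin.castAdd m i) = Fin.castAdd m (S.iv i) := by
  unfold eiv; rw [Fin.addCases_left]

lemma eiv_r (j : Fin m) : eiv S m (Fin.natAdd n j) = Fin.natAdd n (exists_iv m j).choose := by
  unfold eiv; rw [Fin.addCases_right]

/-- the product system -/
noncomputable def ext : CS (B × Cy m) (n + m) where
  gen := eg S m
  iv := eiv S m
  hiv := by
    intro i
    refine Fin.addCases (fun i => ?_) (fun j => ?_) i
    · rw [eiv_l, eg_l, eg_l, S.hiv]
      exact Prod.ext rfl inv_one.symm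
    · rw [eiv_r, eg_r, eg_r, (exists_iv m j).choose_spec]
      exact Prod.ext inv_one.symm rfl
  one := by
    intro i
    refine Fin.addCases (fun i => ?_) (fun j => ?_) i
    · rw [eg_l]
      intro h
      exact S.one i (congrArg Prod.fst h)
    · rw [eg_r]
      intro h
      exact yy_ne m j (congrArg Prod.snd h)
  inj := by
    intro i
    refine Fin.addCases (fun i => ?_) (fun i => ?_) i
    · intro j
      refine Fin.addCases (fun j => ?_) (fun j => ?_) j
      · intro h
        rw [eg_l, eg_l] at h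
        rw [S.inj (congrArg Prod.fst h)]
      · intro h
        rw [eg_l, eg_r] at h
        exact absurd (congrArg Prod.fst h) (S.one i)
    · intro j
      refine Fin.addCases (fun j => ?_) (fun j => ?_) j
      · intro h
        rw [eg_r, eg_l] at h
        exact absurd (congrArg Prod.fst h).symm (S.one j)
      · intro h
        rw [eg_r, eg_r] at h
        rw [yy_inj m (congrArg Prod.snd h)]
  top := ext_top S m

lemma gen_ext (i : Fin (n + m)) : (ext S m).gen i = eg S m i := rfl

lemma iv_ext (i : Fin n) : (ext S m).iv (Fin.castAdd m i) = Fin.castAdd m (S.iv i) :=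
  eiv_l S m i

lemma link_ll (i j : Fin n) :
    (ext S m).link (Fin.castAdd m i) (Fin.castAdd m j) ↔ S.link i j := by
  unfold CS.link
  simp only [gen_ext, eg_l]
  constructor
  · rintro ⟨k, hk⟩
    revert hk
    refine Fin.addCases (fun k => ?_) (fun k => ?_) k
    · rw [eg_l]
      intro h
      exact ⟨k, congrArg Prod.fst h⟩
    · rw [eg_r]
      intro h
      have h2 : (1 : Cy m) = yy m k * 1 := congrArg Prod.snd h
      rw [mul_one] at h2
      exact absurd h2.symm (yy_ne m k)
  · rintro ⟨k, hk⟩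
    exact ⟨Fin.castAdd m k, by rw [eg_l, hk, Prod.mk_mul_mk, one_mul]⟩

lemma link_lr (i : Fin n) (j : Fin m) :
    ¬ (ext S m).link (Fin.castAdd m i) (Fin.natAdd n j) := by
  unfold CS.link
  simp only [gen_ext, eg_l, eg_r]
  rintro ⟨k, hk⟩
  revert hk
  refine Fin.addCases (fun k => ?_) (fun k => ?_) k
  · rw [eg_l]
    intro h
    have h2 : yy m j = 1 * 1 := congrArg Prod.snd h
    rw [mul_one] at h2
    exact yy_ne m j h2
  · rw [eg_r]
    intro h
    have h2 : (1 : B) = 1 * S.gen i := congrArg Prod.fst h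
    rw [one_mul] at h2
    exact S.one i h2.symm

lemma link_rl (i : Fin m) (j : Fin n) :
    ¬ (ext S m).link (Fin.natAdd n i) (Fin.castAdd m j) := by
  unfold CS.link
  simp only [gen_ext, eg_l, eg_r]
  rintro ⟨k, hk⟩
  revert hk
  refine Fin.addCases (fun k => ?_) (fun k => ?_) k
  · rw [eg_l]
    intro h
    have h2 : (1 : Cy m) = 1 * yy m i := congrArg Prod.snd h
    rw [one_mul] at h2
    exact yy_ne m i h2.symm
  · rw [eg_r]
    intro h
    have h2 : S.gen j = 1 * 1 := congrArg Prod.fst h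
    rw [one_mul] at h2
    exact S.one j h2

lemma link_rr (i j : Fin m) :
    (ext S m).link (Fin.natAdd n i) (Fin.natAdd n j) ↔ i ≠ j := by
  unfold CS.link
  simp only [gen_ext, eg_r]
  constructor
  · rintro ⟨k, hk⟩ rfl
    exact (ext S m).one k (mul_eq_right.1 hk.symm)
  · intro hij
    have hne : yy m j * (yy m i)⁻¹ ≠ 1 := by
      intro h
      exact hij (yy_inj m (mul_inv_eq_one.1 h)).symm
    obtain ⟨k, hk⟩ := yy_surj m _ hne
    exact ⟨Fin.natAdd n k, by rw [eg_r, hk, Prod.mk_mul_mk, one_mul, inv_mul_cancel_right]⟩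

end ext

/-! ### walks in the link -/

section walks

/-- number of walks of given length -/
noncomputable def wg {ι : Type} [Fintype ι] (L : ι → ι → Prop) [∀ i j, Decidable (L i j)] :
    ℕ → ι → ℕ
  | 0, _ => 1
  | k + 1, i => ∑ j, if L i j then wg L k j else 0

lemma wg_inv {ι : Type} [Fintype ι] (L : ι → ι → Prop) [∀ i j, Decidable (L i j)]
    (f : Equiv.Perm ι) (h : ∀ i j, L (f i) (f j) ↔ L i j) (k : ℕ) (i : ι) :
    wg L k (f i) = wg L k i := by
  induction k generalizing i with
  | zero => rfl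
  | succ k ih =>
    show (∑ j, if L (f i) j then wg L k j else 0) = ∑ j, if L i j then wg L k j else 0
    rw [← Equiv.sum_comp f]
    apply Finset.sum_congr rfl
    intro j _
    rw [ih]
    exact if_congr (h i j) rfl rfl

variable {B : Type} [Group B] {n : ℕ} (S : CS B n) (m : ℕ) (T : Fin n → Fin n → Bool)

lemma wg_l (hT : ∀ i j, T i j = true ↔ S.link i j)
    [∀ i j, Decidable ((ext S m).link i j)] (k : ℕ) (i : Fin n) :
    wg (ext S m).link k (Fin.castAdd m i) = wkb T k i := by
  induction k generalizing i with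
  | zero => rfl
  | succ k ih =>
    show (∑ j, if (ext S m).link (Fin.castAdd m i) j then wg (ext S m).link k j else 0) =
      ∑ j, if T i j then wkb T k j else 0
    rw [Fin.sum_univ_add]
    rw [Finset.sum_congr rfl (g := fun _ => 0) (s₁ := (Finset.univ : Finset (Fin m)))
      (fun j _ => if_neg (link_lr S m i j)), Finset.sum_const_zero, add_zero]
    apply Finset.sum_congr rfl
    intro j _
    rw [ih]
    exact if_congr ((link_ll S m i j).trans (hT i j).symm) rfl rfl

lemma wg_r [∀ i j, Decidable ((ext S m).link i j)] (k : ℕ) (i : Fin m) :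
    wg (ext S m).link k (Fin.natAdd n i) = (m - 1) ^ k := by
  induction k generalizing i with
  | zero => rfl
  | succ k ih =>
    show (∑ j, if (ext S m).link (Fin.natAdd n i) j then wg (ext S m).link k j else 0) = _
    rw [Fin.sum_univ_add]
    rw [Finset.sum_congr rfl (g := fun _ => 0) (s₁ := (Finset.univ : Finset (Fin n)))
      (fun j _ => if_neg (link_rl S m i j)), Finset.sum_const_zero, zero_add]
    have e : ∀ j : Fin m, (if (ext S m).link (Fin.natAdd n i) (Fin.natAdd n j)
        then wg (ext S m).link k (Fin.natAdd n j) else 0) = if j ≠ i then (m - 1) ^ k else 0 := by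
      intro j
      rw [ih]
      refine if_congr ((link_rr S m i j).trans ?_) rfl rfl
      exact ne_comm
    rw [Finset.sum_congr rfl (fun j _ => e j), ← Finset.sum_filter, Finset.sum_const,
      Finset.filter_ne', Finset.card_erase_of_mem (Finset.mem_univ i), Finset.card_univ,
      Fintype.card_fin, smul_eq_mul, pow_succ, mul_comm]

end walks

/-- rigidity of the core labels in the product -/
theorem rigidAt {n : ℕ} (K : Core n) {A : Type} [Group A] {a b : A} (h : Gen a b)
    (htop : ∀ x : A × DihedralGroup 3, ∃ u : List (Fin n), (u.map (K.g a b)).prod = x)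
    (m : ℕ) (hm : m ≠ 1) :
    RigidAt (ext (K.toCS h htop) m) (fun j => Fin.castAdd m (K.c j)) := by
  classical
  set S := K.toCS h htop with hS
  have hT : ∀ i j, TTb K.ty K.fd i j = true ↔ S.link i j := fun i j => K.TT_iff h i j
  intro f hf hl j
  have hinv := wg_inv (ext S m).link (Equiv.ofBijective f hf) hl
  have hwl := wg_l S m (TTb K.ty K.fd) hT
  have hwr := wg_r S m
  have key : ∀ k, wg (ext S m).link k (f (Fin.castAdd m (K.c j))) = wkb (TTb K.ty K.fd) k (K.c j) := by
    intro k
    rw [← hwl]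
    exact hinv k _
  generalize f (Fin.castAdd m (K.c j)) = x at key
  revert key
  refine Fin.addCases (fun x => ?_) (fun x => ?_) x
  · intro key
    have h3 := key 3
    rw [hwl] at h3
    rw [K.wk _ _ h3]
  · intro key
    exfalso
    have h1 := key 1
    have h2 := key 2
    have h3 := key 3
    rw [hwr, pow_one] at h1
    rw [hwr, pow_two] at h2
    rw [hwr, pow_three] at h3
    have h0 := K.irr (K.c j) (by rw [← h1, ← h2]) (by rw [← h1, ← h3])
    rw [← h1] at h0
    have hx := x.2
    omega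

/-- the core of degree 9 -/
def K9 : Core 9 where
  ty := ![0, 0, 1, 2, 2, 2, 3, 3, 3]
  fd := ![sr 0, sr 1, r 0, r 0, r 1, sr 0, r 0, r 2, sr 0]
  iv := ![0, 1, 2, 6, 7, 8, 3, 4, 5]
  inj := by decide
  ivs := by decide
  ne1 := by decide
  c := ![2, 3, 6]
  tc := by decide
  fc := by decide
  ic := by decide
  full := by
    intro f
    have hf : f = 1 ∨ f = sr 0 ∨ f = sr 1 ∨ f = sr 0 * sr 1 ∨ f = sr 1 * sr 0 ∨
        f = sr 0 * sr 1 * sr 0 := by revert f; decide
    rcases hf with rfl | rfl | rfl | rfl | rfl | rfl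
    · exact ⟨[], by simp, rfl⟩
    · exact ⟨[0], by decide, by decide⟩
    · exact ⟨[1], by decide, by decide⟩
    · exact ⟨[0, 1], by decide, by decide⟩
    · exact ⟨[1, 0], by decide, by decide⟩
    · exact ⟨[0, 1, 0], by decide, by decide⟩
  wk := by decide +kernel
  irr := by decide +kernel

/-- the core of degree 10 -/
def K10 : Core 10 where
  ty := ![0, 0, 0, 1, 2, 2, 2, 3, 3, 3]
  fd := ![r 1, r 2, sr 0, r 0, r 0, r 1, sr 1, r 0, r 2, sr 1]
  iv := ![1, 0, 2, 3, 7, 8, 9, 4, 5, 6]
  inj := by decide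
  ivs := by decide
  ne1 := by decide
  c := ![3, 4, 7]
  tc := by decide
  fc := by decide
  ic := by decide
  full := by
    intro f
    have hf : f = 1 ∨ f = r 1 ∨ f = r 2 ∨ f = sr 0 ∨ f = r 1 * sr 0 ∨
        f = r 2 * sr 0 := by revert f; decide
    rcases hf with rfl | rfl | rfl | rfl | rfl | rfl
    · exact ⟨[], by simp, rfl⟩
    · exact ⟨[0], by decide, by decide⟩
    · exact ⟨[1], by decide, by decide⟩
    · exact ⟨[2], by decide, by decide⟩
    · exact ⟨[0, 2], by decide, by decide⟩
    · exact ⟨[1, 2], by decide, by decide⟩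
  wk := by decide +kernel
  irr := by decide +kernel

end Pool.Agent.Y407.LB.Deg
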