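import Pool.Agent.Y407.LB.Grp

set_option autoImplicit false

namespace Pool.Agent.Y407.LB.Fin

open Pool.Agent.Results.MP_fed0c4_co.Superlinear Pool.Agent.Y407.LB.Loc Pool.Agent.Y407.LB.Deg
open Pool.Agent.Y407.LB.Grp
open Equiv Equiv.Perm

section grp

variable {N : ℕ} (h : ZMod N) (hh : 2 * h = 1)

/-- the group generated by the two permutations -/
abbrev AA : Subgroup (Perm (Om N)) := Subgroup.closure {aP h hh, bP}

def aa : AA h hh := ⟨aP h hh, Subgroup.subset_closure (Or.inl rfl)⟩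
def bb : AA h hh := ⟨bP, Subgroup.subset_closure (Or.inr rfl)⟩

lemma ne_of_app {β : Type} {x y : Perm β} (q : β) (e : x q ≠ y q) : x ≠ y := by
  rintro rfl
  exact e rfl

lemma snd_ne {x y : Om N} (e : x.2 ≠ y.2) : x ≠ y := fun h => e (congrArg Prod.snd h)

lemma gen : Gen (aa h hh) (bb h hh) := by
  refine ⟨?_, ?_, ?_, ?_, ?_, ?_, ?_⟩
  · apply Subtype.ext
    ext1 q
    exact aF_aF hh q
  · intro e
    exact ne_of_app (β := Om N) (0, 0) (snd_ne (by
      show (1 : Fin 6) ≠ 0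
      decide)) (congrArg Subtype.val e)
  · intro e
    exact ne_of_app (β := Om N) (0, 1) (snd_ne (by
      show (2 : Fin 6) ≠ 1
      decide)) (congrArg Subtype.val e)
  · intro e
    exact ne_of_app (β := Om N) (0, 1) (snd_ne (by
      show (0 : Fin 6) ≠ 2
      decide)) (congrArg Subtype.val e)
  · intro e
    exact ne_of_app (β := Om N) (0, 1) (snd_ne (by
      show (3 : Fin 6) ≠ 1
      decide)) (congrArg Subtype.val e)
  · intro e
    exact ne_of_app (β := Om N) (0, 1) (snd_ne (by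
      show (3 : Fin 6) ≠ 0
      decide)) (congrArg Subtype.val e)
  · intro e
    exact ne_of_app (β := Om N) (0, 1) (snd_ne (by
      show (4 : Fin 6) ≠ 1
      decide)) (congrArg Subtype.val e)

lemma mtop : Submonoid.closure ({aa h hh, bb h hh, (bb h hh)⁻¹} : Set (AA h hh)) = ⊤ := by
  have h1 := Subgroup.closure_closure_coe_preimage (k := ({aP h hh, bP} : Set (Perm (Om N))))
  have h2 := congrArg Subgroup.toSubmonoid h1
  rw [Subgroup.closure_toSubmonoid] at h2
  rw [eq_top_iff]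
  have h3 : (⊤ : Submonoid (AA h hh)) = (⊤ : Subgroup (AA h hh)).toSubmonoid := rfl
  rw [h3, ← h2, Submonoid.closure_le]
  have ha : (aa h hh)⁻¹ = aa h hh := (gen h hh).ai
  have key : ∀ x : AA h hh, x ∈ ((↑) : AA h hh → Perm (Om N)) ⁻¹' {aP h hh, bP} →
      x = aa h hh ∨ x = bb h hh := by
    rintro x (hx | hx)
    · left; exact Subtype.ext hx
    · right; exact Subtype.ext hx
  rintro x (hx | hx)
  · rcases key x hx with rfl | rfl
    · exact Submonoid.subset_closure (Or.inl rfl)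
    · exact Submonoid.subset_closure (Or.inr (Or.inl rfl))
  · rw [Set.mem_inv] at hx
    rcases key _ hx with e | e
    · have : x = aa h hh := by rw [← ha, ← e, inv_inv]
      rw [this]
      exact Submonoid.subset_closure (Or.inl rfl)
    · have : x = (bb h hh)⁻¹ := by rw [← e, inv_inv]
      rw [this]
      exact Submonoid.subset_closure (Or.inr (Or.inr rfl))

variable {n₀ : ℕ} (K : Core n₀) (m : ℕ)

/-- the system -/
noncomputable def SY : CS ((AA h hh × DihedralGroup 3) × Cy m) (n₀ + m) :=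
  ext (K.toCS (gen h hh) (K.htop (mtop h hh))) m

/-- labels of the three letters -/
def lb : Fin 3 → Fin (n₀ + m) := fun j => Fin.castAdd m (K.c j)

lemma SY_rigid (hm : m ≠ 1) : RigidAt (SY h hh K m) (lb K m) :=
  rigidAt K (gen h hh) (K.htop (mtop h hh)) m hm

lemma SY_iv (j : Fin 3) : (SY h hh K m).iv (lb K m j) = lb K m (jv j) := by
  unfold SY lb
  rw [iv_ext]
  show Fin.castAdd m (K.iv (K.c j)) = _
  rw [K.ic]
  rfl

lemma jv_jv (j : Fin 3) : jv (jv j) = j := by revert j; decide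

/-- letters in the generated group -/
def la (j : Fin 3) : AA h hh := vl (aa h hh) (bb h hh) j.succ

lemma la_val (j : Fin 3) : ((la h hh j : AA h hh) : Perm (Om N)) = vv h hh j := by
  fin_cases j
  · rfl
  · rfl
  · rfl

lemma la_prod (u : List (Fin 3)) :
    (((u.map (la h hh)).prod : AA h hh) : Perm (Om N)) = (u.map (vv h hh)).prod := by
  induction u with
  | nil => rfl
  | cons i u ih =>
    rw [List.map_cons, List.prod_cons, List.map_cons, List.prod_cons, ← ih, ← la_val]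
    rfl

lemma SY_ev (u : List (Fin 3)) : (SY h hh K m).ev (u.map (lb K m)) =
    (((u.map (la h hh)).prod, 1), 1) := by
  induction u with
  | nil => rfl
  | cons i u ih =>
    rw [List.map_cons, CS.ev_cons, ih, List.map_cons, List.prod_cons]
    have h1 : (SY h hh K m).gen (lb K m i) = ((la h hh i, 1), 1) := by
      unfold SY lb
      rw [gen_ext, eg_l]
      show (K.g (aa h hh) (bb h hh) (K.c i), (1 : Cy m)) = _
      rw [K.g_c]
      rfl
    rw [h1]
    simp only [Prod.mk_mul_mk, mul_one]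

lemma ev_eq {u v : List (Fin 3)} (e : (u.map (vv h hh)).prod = (v.map (vv h hh)).prod) :
    (SY h hh K m).ev (u.map (lb K m)) = (SY h hh K m).ev (v.map (lb K m)) := by
  rw [SY_ev, SY_ev]
  have : (u.map (la h hh)).prod = (v.map (la h hh)).prod := by
    apply Subtype.ext
    rw [la_prod, la_prod, e]
  rw [this]

lemma eq_ev {u : List (Fin 3)} (e : (SY h hh K m).ev (u.map (lb K m)) = 1) :
    (u.map (vv h hh)).prod = 1 := by
  rw [SY_ev] at e
  have h1 : (u.map (la h hh)).prod = 1 := congrArg (fun x => x.1.1) e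
  rw [← la_prod, h1]
  rfl

/-- lower bound for the number of elements in terms of the diameter -/
theorem factorial_le {n r D : ℕ} (hm : m ≠ 1) (hn : 2 ≤ n) (hN : N + 1 = 2 ^ n)
    (hr : 72 * n + 15 ≤ r) {W : Type} {H : SimpleGraph W} (hH : H.Connected)
    (hB : ∀ w, ∃ f, BM (SY h hh K m).Cay 1 H w r f) (hD : H.ediam ≤ D) :
    (N - N / 2).factorial ≤ (n₀ + m + 1) ^ D := by
  obtain ⟨⟨a⟩, σ, hσ⟩ := exists_act3 jv jv_jv (SY_iv h hh K m) hH (SY_rigid h hh K m hm)
    (by omega) hB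
  obtain ⟨hfin, hcard⟩ := card_le hσ hH hD
  obtain ⟨w⟩ := hH.nonempty
  refine (card_ge hn hN hh hr a.P ?_ ?_ w).trans hcard
  · intro u v hu hv e
    exact a.rel u v hu hv (ev_eq h hh K m e)
  · intro u w hu e
    exact eq_ev h hh K m (a.free u w hu e)

end grp

/-- numbers: the factorial beats the number of words -/
lemma num (d : ℕ) : ∃ R : ℕ, 1 ≤ R ∧ ∀ r, R ≤ r → ∃ n, 2 ≤ n ∧ 72 * n + 15 ≤ r ∧
    (d + 1) ^ (2 ^ (r / 72)) < (2 ^ (n - 1)).factorial := by
  refine ⟨72 * ((d + 1) ^ 8 + 5), by omega, fun r hr => ⟨(r - 15) / 72, ?_, ?_, ?_⟩⟩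
  · omega
  · omega
  · set E := (d + 1) ^ 8 with hE
    obtain ⟨n, hn⟩ : ∃ n, (r - 15) / 72 = n + 2 := ⟨(r - 15) / 72 - 2, by omega⟩
    rw [hn]
    have h1 : r / 72 ≤ n + 3 := by omega
    have h2 : E ≤ n := by omega
    have h3 : n < 2 ^ n := Nat.lt_two_pow_self
    have e1 : n + 2 - 1 = n + 1 := by omega
    rw [e1]
    set M := 2 ^ n with hM
    have h4 : (d + 1) ^ 2 ^ (r / 72) ≤ E ^ M := by
      rw [hE, ← pow_mul]
      apply Nat.pow_le_pow_right (by omega)
      calc 2 ^ (r / 72) ≤ 2 ^ (n + 3) := Nat.pow_le_pow_right (by norm_num) h1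
        _ = 8 * M := by rw [hM]; ring
    have h5 : E ^ M < (M + 1) ^ M := Nat.pow_lt_pow_left (by omega) (by rw [hM]; positivity)
    have h6 := Nat.factorial_mul_pow_le_factorial (m := M) (n := M)
    have h7 : (M + 1) ^ M ≤ M.factorial * (M + 1) ^ M :=
      Nat.le_mul_of_pos_left _ (Nat.factorial_pos M)
    have h8 : 2 ^ (n + 1) = M + M := by rw [hM]; ring
    rw [h8]
    omega

lemma half_exists {n N : ℕ} (hn : 2 ≤ n) (hN : N + 1 = 2 ^ n) : ∃ h : ZMod N, 2 * h = 1 := by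
  refine ⟨2 ^ (n - 1), ?_⟩
  rw [← pow_succ']
  have : n - 1 + 1 = n := by omega
  rw [this]
  exact two_pow hN

theorem main (n₀ : ℕ) (K : Core n₀) (m : ℕ) (hm : m ≠ 1) : ∃ R : ℕ, ∀ r : ℕ, R ≤ r →
    ((2 ^ (r / 72) : ℕ) : ℕ∞) < M (n₀ + m) r ∧
    ∃ B : RootedGraph, Realizable B r ∧ rootDegree B = n₀ + m ∧
      ((2 ^ (r / 72) : ℕ) : ℕ∞) < D B r ∧ D B r < ⊤ := by
  obtain ⟨R, hR1, hR⟩ := num (n₀ + m)
  refine ⟨R, fun r hr => ?_⟩
  obtain ⟨n, hn, hnr, hfac⟩ := hR r hr
  have h4 : 4 ≤ 2 ^ n := by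
    calc 4 = 2 ^ 2 := by norm_num
      _ ≤ 2 ^ n := Nat.pow_le_pow_right (by norm_num) hn
  obtain ⟨N, hN⟩ : ∃ N, N + 1 = 2 ^ n := ⟨2 ^ n - 1, by omega⟩
  obtain ⟨h, hh⟩ := half_exists hn hN
  have hN0 : NeZero N := ⟨by omega⟩
  set S := SY h hh K m with hS
  have hreal : Realizable (ball S.Cay 1 r) r := ⟨_, inferInstance, S.Cay, S.conn, allBalls_CS _ _⟩
  have hdeg : rootDegree (ball S.Cay 1 r) = n₀ + m := rootDegree_CS _ (by omega)
  have key : ((2 ^ (r / 72) + 1 : ℕ) : ℕ∞) ≤ D (ball S.Cay 1 r) r := by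
    apply le_sInf
    rintro _ ⟨W, H, hH, hB, rfl⟩
    by_contra hcon
    rw [not_le] at hcon
    have hD : H.ediam ≤ ((2 ^ (r / 72) : ℕ) : ℕ∞) := by
      have : ((2 ^ (r / 72) + 1 : ℕ) : ℕ∞) = ((2 ^ (r / 72) : ℕ) : ℕ∞) + 1 := by
        push_cast; rfl
      rw [this] at hcon
      exact (ENat.lt_add_one_iff (ENat.natCast_ne_top _)).1 hcon
    have hB' : ∀ w, ∃ f, BM S.Cay 1 H w r f := fun w =>
      (sameBall_of_iso (hB w).symm).exists_map
    have h5 := factorial_le h hh K m hm hn hN hnr hH hB' hD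
    have h6 : N - N / 2 = 2 ^ (n - 1) := by
      have : 2 ^ n = 2 * 2 ^ (n - 1) := by
        rw [← pow_succ']
        congr 1
        omega
      omega
    rw [h6] at h5
    exact absurd h5 (not_le.2 hfac)
  have key2 : ((2 ^ (r / 72) : ℕ) : ℕ∞) < D (ball S.Cay 1 r) r := by
    refine lt_of_lt_of_le ?_ key
    exact_mod_cast Nat.lt_succ_self _
  exact ⟨lt_of_lt_of_le key2 (le_sSup ⟨_, hreal, hdeg, rfl⟩), _, hreal, hdeg, key2, D_lt_top hreal⟩

end Pool.Agent.Y407.LB.Fin
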