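import Pool.Agent.Y407.LB.Core
import Pool.Agent.Y407.LB.Boch

set_option autoImplicit false

namespace Pool.Agent.Y407.LB.Grp

open Pool.Agent.Results.MP_fed0c4_co.Superlinear Pool.Agent.Y407.LB.Loc Pool.Agent.Y407.LB.Deg
open Equiv Equiv.Perm

/-- six sheets -/
abbrev Om (N : ℕ) : Type := ZMod N × Fin 6

variable {N : ℕ}

/-- the involution -/
def aF (h : ZMod N) (q : Om N) : Om N :=
  (![(q.1, 1), (q.1, 0), (q.1 + 1, 3), (q.1 - 1, 2), (2 * q.1, 5), (h * q.1, 4)] : Fin 6 → Om N) q.2

/-- the other generator -/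
def bF (q : Om N) : Om N :=
  (![(swap 0 1 q.1, 0), (q.1, 2), (q.1, 3), (q.1, 4), (q.1, 5), (q.1, 1)] : Fin 6 → Om N) q.2

def bI (q : Om N) : Om N :=
  (![(swap 0 1 q.1, 0), (q.1, 5), (q.1, 1), (q.1, 2), (q.1, 3), (q.1, 4)] : Fin 6 → Om N) q.2

lemma aF_aF {h : ZMod N} (hh : 2 * h = 1) (q : Om N) : aF h (aF h q) = q := by
  have hh' : h * 2 = 1 := by rw [mul_comm]; exact hh
  obtain ⟨x, s⟩ := q
  fin_cases s
  · rfl
  · rfl
  · show (x + 1 - 1, 2) = _
    rw [add_sub_cancel_right]
    rfl
  · show (x - 1 + 1, 3) = _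
    rw [sub_add_cancel]
    rfl
  · show (h * (2 * x), 4) = _
    rw [← mul_assoc, hh', one_mul]
    rfl
  · show (2 * (h * x), 5) = _
    rw [← mul_assoc, hh, one_mul]
    rfl

lemma bI_bF (q : Om N) : bI (bF q) = q := by
  obtain ⟨x, s⟩ := q
  fin_cases s
  · show (swap 0 1 (swap 0 1 x), 0) = _
    rw [swap_apply_self]
    rfl
  all_goals rfl

lemma bF_bI (q : Om N) : bF (bI q) = q := by
  obtain ⟨x, s⟩ := q
  fin_cases s
  · show (swap 0 1 (swap 0 1 x), 0) = _
    rw [swap_apply_self]
    rfl
  all_goals rfl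

/-- the involution as a permutation -/
def aP (h : ZMod N) (hh : 2 * h = 1) : Perm (Om N) := ⟨aF h, aF h, aF_aF hh, aF_aF hh⟩

/-- the other generator as a permutation -/
def bP : Perm (Om N) := ⟨bF, bI, bI_bF, bF_bI⟩

/-- the three letters -/
def vv (h : ZMod N) (hh : 2 * h = 1) : Fin 3 → Perm (Om N) := ![aP h hh, bP, bP⁻¹]

/-- inverse letters -/
def jv : Fin 3 → Fin 3 := ![0, 2, 1]

def Tw : List (Fin 3) := [0, 2, 2, 0, 1, 0]
def Cw : List (Fin 3) := [0, 1, 0, 2, 2, 0]

lemma T_apply {h : ZMod N} (hh : 2 * h = 1) (x : ZMod N) :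
    (Tw.map (vv h hh)).prod (x, 0) = (x + 1, 0) := rfl

lemma C_apply {h : ZMod N} (hh : 2 * h = 1) (x : ZMod N) :
    (Cw.map (vv h hh)).prod (x, 0) = (2 * x, 0) := rfl

/-- word of the translation by `i` -/
def Uw : ℕ → ℕ → List (Fin 3)
  | 0, _ => []
  | j + 1, i => (if i % 2 = 1 then Tw else []) ++ (Cw ++ Uw j (i / 2))

lemma Uw_length (j i : ℕ) : (Uw j i).length ≤ 12 * j := by
  induction j generalizing i with
  | zero => exact le_rfl
  | succ j ih =>
    have h1 := ih (i / 2)
    have h2 : Cw.length = 6 := rfl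
    have h3 : (if i % 2 = 1 then Tw else []).length ≤ 6 := by
      split_ifs
      · exact le_rfl
      · exact Nat.zero_le _
    show ((if i % 2 = 1 then Tw else []) ++ (Cw ++ Uw j (i / 2))).length ≤ _
    rw [List.length_append, List.length_append]
    omega

lemma U_apply {h : ZMod N} (hh : 2 * h = 1) (j i : ℕ) (hi : i < 2 ^ j) (x : ZMod N) :
    ((Uw j i).map (vv h hh)).prod (x, 0) = (2 ^ j * x + (i : ZMod N), 0) := by
  induction j generalizing i x with
  | zero =>
    have : i = 0 := by rw [pow_zero] at hi; omega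
    rw [this]
    show (x, (0 : Fin 6)) = _
    rw [pow_zero, one_mul, Nat.cast_zero, add_zero]
  | succ j ih =>
    have h1 : i / 2 < 2 ^ j := by rw [pow_succ] at hi; omega
    show (((if i % 2 = 1 then Tw else []) ++ (Cw ++ Uw j (i / 2))).map (vv h hh)).prod (x, 0) = _
    rw [List.map_append, List.prod_append, List.map_append, List.prod_append, Perm.mul_apply,
      Perm.mul_apply, ih _ h1, C_apply]
    have h2 : (i : ZMod N) = 2 * ((i / 2 : ℕ) : ZMod N) + ((i % 2 : ℕ) : ZMod N) := by
      have := Nat.div_add_mod i 2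
      calc (i : ZMod N) = ((2 * (i / 2) + i % 2 : ℕ) : ZMod N) := by rw [this]
        _ = _ := by push_cast; ring
    split_ifs with h3
    · rw [T_apply, h2, h3]
      congr 1
      push_cast
      ring
    · have h4 : i % 2 = 0 := by omega
      rw [h2, h4]
      show (_, (0 : Fin 6)) = _
      congr 1
      push_cast
      ring

/-- inverse word -/
def iw (u : List (Fin 3)) : List (Fin 3) := (u.map jv).reverse

lemma iw_prod {h : ZMod N} (hh : 2 * h = 1) (u : List (Fin 3)) :
    ((iw u).map (vv h hh)).prod = ((u.map (vv h hh)).prod)⁻¹ := by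
  induction u with
  | nil => rw [List.map_nil, List.prod_nil, inv_one]; rfl
  | cons i u ih =>
    have h1 : iw (i :: u) = iw u ++ [jv i] := by
      unfold iw; rw [List.map_cons, List.reverse_cons]
    have h2 : vv h hh (jv i) = (vv h hh i)⁻¹ := by
      fin_cases i
      · rfl
      · rfl
      · exact (inv_inv bP).symm
    rw [h1, List.map_append, List.prod_append, ih, List.map_cons, List.map_nil,
      List.prod_singleton, List.map_cons, List.prod_cons, mul_inv_rev, h2]

/-- word of the transposition of the points `i` and `i + 1` of the zeroth sheet -/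
def Vw (n i : ℕ) : List (Fin 3) := Uw n i ++ ([1, 1, 1, 1, 1] ++ iw (Uw n i))

lemma Vw_length (n i : ℕ) : (Vw n i).length ≤ 24 * n + 5 := by
  have h1 := Uw_length n i
  unfold Vw iw
  simp only [List.length_append, List.length_reverse, List.length_map, List.length_cons,
    List.length_nil]
  omega

lemma b5 {h : ZMod N} (hh : 2 * h = 1) :
    (([1, 1, 1, 1, 1] : List (Fin 3)).map (vv h hh)).prod = swap ((0 : ZMod N), (0 : Fin 6)) (1, 0) := by
  ext1 q
  obtain ⟨x, s⟩ := q
  have hne : ∀ s : Fin 6, s ≠ 0 → swap ((0 : ZMod N), (0 : Fin 6)) (1, 0) (x, s) = (x, s) := by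
    intro s hs
    apply swap_apply_of_ne_of_ne
    · intro e; exact hs (congrArg Prod.snd e)
    · intro e; exact hs (congrArg Prod.snd e)
  fin_cases s
  · show (swap 0 1 (swap 0 1 (swap 0 1 (swap 0 1 (swap 0 1 x)))), (0 : Fin 6)) =
      swap ((0 : ZMod N), (0 : Fin 6)) (1, 0) (x, 0)
    rw [swap_apply_self, swap_apply_self]
    by_cases h0 : x = 0
    · rw [h0, swap_apply_left, swap_apply_left]
    · by_cases h1 : x = 1
      · rw [h1, swap_apply_right, swap_apply_right]
      · rw [swap_apply_of_ne_of_ne h0 h1, swap_apply_of_ne_of_ne]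
        · intro e; exact h0 (congrArg Prod.fst e)
        · intro e; exact h1 (congrArg Prod.fst e)
  · exact (hne 1 (by decide)).symm
  · exact (hne 2 (by decide)).symm
  · exact (hne 3 (by decide)).symm
  · exact (hne 4 (by decide)).symm
  · exact (hne 5 (by decide)).symm

/-- points of the zeroth sheet -/
def pt (N : ℕ) (i : ℕ) : Om N := ((i : ZMod N), 0)

lemma two_pow {n : ℕ} (hN : N + 1 = 2 ^ n) : (2 : ZMod N) ^ n = 1 := by
  have h1 : ((2 ^ n : ℕ) : ZMod N) = ((N + 1 : ℕ) : ZMod N) := by rw [hN]
  push_cast at h1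
  rw [h1, ZMod.natCast_self, zero_add]

lemma V_val {n : ℕ} (hN : N + 1 = 2 ^ n) {h : ZMod N} (hh : 2 * h = 1) {i : ℕ} (hi : i < 2 ^ n) :
    ((Vw n i).map (vv h hh)).prod = swap (pt N i) (pt N (i + 1)) := by
  unfold Vw
  rw [List.map_append, List.prod_append, List.map_append, List.prod_append, iw_prod, b5,
    ← mul_assoc, ← swap_apply_apply, U_apply hh n i hi, U_apply hh n i hi, two_pow hN]
  unfold pt
  rw [mul_zero, zero_add, mul_one, Nat.cast_add, Nat.cast_one, add_comm]

lemma pt_inj {i j : ℕ} (hi : i < N) (hj : j < N) (h : pt N i = pt N j) : i = j := by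
  have h1 : (i : ZMod N) = (j : ZMod N) := congrArg Prod.fst h
  rw [ZMod.natCast_eq_natCast_iff'] at h1
  rwa [Nat.mod_eq_of_lt hi, Nat.mod_eq_of_lt hj] at h1

lemma swap_cox {β : Type} [DecidableEq β] (p : ℕ → β) (k : ℕ)
    (hp : ∀ i j, i ≤ k → j ≤ k → p i = p j → i = j) :
    Cox (fun i => swap (p i) (p (i + 1))) k := by
  refine ⟨?_, ?_, ?_⟩
  · intro i _
    exact swap_mul_self _ _
  · intro i hi
    have h1 : p i ≠ p (i + 1) := by
      intro h; have := hp _ _ (by omega) (by omega) h; omega
    have h2 : p i ≠ p (i + 1 + 1) := by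
      intro h; have := hp _ _ (by omega) (by omega) h; omega
    have h3 : p (i + 1) ≠ p (i + 1 + 1) := by
      intro h; have := hp _ _ (by omega) (by omega) h; omega
    show swap (p i) (p (i + 1)) * swap (p (i + 1)) (p (i + 1 + 1)) * swap (p i) (p (i + 1)) =
      swap (p (i + 1)) (p (i + 1 + 1)) * swap (p i) (p (i + 1)) *
        swap (p (i + 1)) (p (i + 1 + 1))
    generalize p i = x at *
    generalize p (i + 1) = y at *
    generalize p (i + 1 + 1) = z at *
    have e1 : swap x y * swap y z * swap x y = swap x z := by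
      have := swap_apply_apply (swap x y) y z
      rw [swap_apply_right, swap_apply_of_ne_of_ne h2.symm h3.symm, swap_inv] at this
      exact this.symm
    have e2 : swap y z * swap x y * swap y z = swap x z := by
      have := swap_apply_apply (swap y z) x y
      rw [swap_apply_left, swap_apply_of_ne_of_ne h1 h2, swap_inv] at this
      exact this.symm
    rw [e1, e2]
  · intro i j hij hj
    show swap (p i) (p (i + 1)) * swap (p j) (p (j + 1)) =
      swap (p j) (p (j + 1)) * swap (p i) (p (i + 1))
    rw [mul_swap_eq_swap_mul, swap_apply_of_ne_of_ne, swap_apply_of_ne_of_ne]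
    all_goals
      intro h
      have := hp _ _ (by omega) (by omega) h
      omega

section act

variable {W : Type} [Finite W]

/-- the action on a finite set forces it to be large -/
theorem card_ge {n r : ℕ} (hn : 2 ≤ n) (hN : N + 1 = 2 ^ n) {h : ZMod N} (hh : 2 * h = 1)
    (hr : 72 * n + 15 ≤ r) (P : Fin 3 → Perm W)
    (rel : ∀ u v : List (Fin 3), u.length ≤ r → v.length ≤ r →
      (u.map (vv h hh)).prod = (v.map (vv h hh)).prod → (u.map P).prod = (v.map P).prod)
    (free : ∀ (u : List (Fin 3)) (w : W), u.length ≤ r → (u.map P).prod w = w →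
      (u.map (vv h hh)).prod = 1) (w : W) : (N - N / 2).factorial ≤ Nat.card W := by
  have h4 : 4 ≤ 2 ^ n := by
    calc 4 = 2 ^ 2 := by norm_num
      _ ≤ 2 ^ n := Nat.pow_le_pow_right (by norm_num) hn
  obtain ⟨k, rfl⟩ : ∃ k, N = k + 1 := ⟨N - 1, by omega⟩
  have hL : ∀ i, (Vw n i).length ≤ 24 * n + 5 := Vw_length n
  have hV : ∀ i, i < k → ((Vw n i).map (vv h hh)).prod = swap (pt (k + 1) i) (pt (k + 1) (i + 1)) :=
    fun i hi => V_val hN hh (by omega)
  have hc := swap_cox (pt (k + 1)) k (fun i j hi hj he => pt_inj (by omega) (by omega) he)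
  have cox : Cox (fun i => ((Vw n i).map P).prod) k := by
    refine ⟨?_, ?_, ?_⟩
    · intro i hi
      have := rel (Vw n i ++ Vw n i) [] (by
          have := hL i; rw [List.length_append]; omega) (by simp) (by
        rw [List.map_append, List.prod_append, hV i hi]
        exact hc.sq i hi)
      rw [List.map_append, List.prod_append] at this
      exact this
    · intro i hi
      have := rel (Vw n i ++ Vw n (i + 1) ++ Vw n i) (Vw n (i + 1) ++ Vw n i ++ Vw n (i + 1))
        (by have h1 := hL i; have h2 := hL (i + 1); simp only [List.length_append]; omega)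
        (by have h1 := hL i; have h2 := hL (i + 1); simp only [List.length_append]; omega) (by
        simp only [List.map_append, List.prod_append]
        rw [hV i (by omega), hV (i + 1) hi]
        exact hc.br i hi)
      simp only [List.map_append, List.prod_append] at this
      exact this
    · intro i j hij hj
      have := rel (Vw n i ++ Vw n j) (Vw n j ++ Vw n i)
        (by have h1 := hL i; have h2 := hL j; simp only [List.length_append]; omega)
        (by have h1 := hL i; have h2 := hL j; simp only [List.length_append]; omega) (by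
        simp only [List.map_append, List.prod_append]
        rw [hV i (by omega), hV j hj]
        exact hc.cm i j hij hj)
      simp only [List.map_append, List.prod_append] at this
      exact this
  obtain ⟨π, hπ⟩ := exists_hom cox
  have hk : 2 ≤ k := by omega
  -- the standard 3-cycle
  have h3c : (adj k 0 * adj k 1).IsThreeCycle := by
    unfold adj
    rw [dif_pos (by omega : 0 < k), dif_pos (by omega : 1 < k), swap_comm]
    apply isThreeCycle_swap_mul_swap_same
    · intro e; have := congrArg Fin.val e; simp at this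
    · intro e; have := congrArg Fin.val e; simp at this
    · intro e; have := congrArg Fin.val e; simp at this
  have hfree : ∀ v : W, π (adj k 0 * adj k 1) v ≠ v := by
    intro v hv
    rw [map_mul, hπ 0 (by omega), hπ 1 (by omega)] at hv
    have h5 := free (Vw n 0 ++ Vw n 1) v (by
      have h1 := hL 0; have h2 := hL 1; simp only [List.length_append]; omega) (by
      rw [List.map_append, List.prod_append]; exact hv)
    rw [List.map_append, List.prod_append, hV 0 (by omega), hV 1 (by omega)] at h5
    have h6 := congrArg (fun e : Perm (Om (k + 1)) => e (pt (k + 1) (1 + 1))) h5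
    simp only [Perm.mul_apply, swap_apply_right, Perm.one_apply] at h6
    have := pt_inj (by omega) (by omega) h6
    omega
  have key := Boch.card_bound π w (by
    intro σ hσ he
    have h5 : IsConj (adj k 0 * adj k 1) σ := by
      rw [isConj_iff_cycleType_eq]
      rw [IsThreeCycle] at h3c hσ
      rw [h3c, hσ]
    obtain ⟨c, hc2⟩ := isConj_iff.1 h5
    apply hfree ((π c)⁻¹ w)
    rw [← hc2, map_mul, map_mul, map_inv, Perm.mul_apply, Perm.mul_apply] at he
    exact Perm.eq_inv_iff_eq.2 he)
  rw [Fintype.card_fin] at key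
  exact key

end act

end Pool.Agent.Y407.LB.Grp
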