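import Pool.Agent.Results.MP_fed0c4_co.Superlinear

set_option autoImplicit false

namespace Pool.Agent.Y407.LB.Loc

open Pool.Agent.Results.MP_fed0c4_co.Superlinear

section Local

variable {A : Type} [Group A] {n : ℕ} (S : CS A n) {W : Type} (H : SimpleGraph W)

/-- the labels `c 0, c 1, c 2` are fixed by all automorphisms of the link -/
def RigidAt (c : Fin 3 → Fin n) : Prop := ∀ f : Fin n → Fin n, Function.Bijective f →
  (∀ i j, S.link (f i) (f j) ↔ S.link i j) → ∀ j, f (c j) = c j

variable {S H}

lemma uniqAt {c : Fin 3 → Fin n} (hr : RigidAt S c) {w : W} {e e' : Fin n → W}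
    (h : IsStep S H w e) (h' : IsStep S H w e') (j : Fin 3) : e (c j) = e' (c j) := by
  have h1 : ∀ i, ∃ j, e' j = e i := fun i => (h'.2.1 (e i)).1 ((h.2.1 (e i)).2 ⟨i, rfl⟩)
  choose f hf using h1
  have hinj : Function.Injective f := by
    intro i j hij
    apply h.1
    rw [← hf, ← hf, hij]
  have hbij : Function.Bijective f := Finite.injective_iff_bijective.1 hinj
  have := hr f hbij (by
    intro i j
    rw [← h'.2.2, hf, hf, h.2.2]) j
  rw [← hf, this]

/-- the local structure turned into an action of words in three letters -/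
structure Act3 (S : CS A n) (c : Fin 3 → Fin n) (H : SimpleGraph W) (r : ℕ) where
  P : Fin 3 → Equiv.Perm W
  rel : ∀ u v : List (Fin 3), u.length ≤ r → v.length ≤ r →
    S.ev (u.map c) = S.ev (v.map c) → (u.map P).prod = (v.map P).prod
  free : ∀ (u : List (Fin 3)) (w : W), u.length ≤ r → (u.map P).prod w = w → S.ev (u.map c) = 1

lemma exists_act3 {c : Fin 3 → Fin n} (jv : Fin 3 → Fin 3) (hjv : ∀ j, jv (jv j) = j)
    (hc : ∀ j, S.iv (c j) = c (jv j)) {r : ℕ} (hH : H.Connected) (hr : RigidAt S c) (h2 : 2 ≤ r)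
    (hB : ∀ w, ∃ f, BM S.Cay 1 H w r f) : Nonempty (Act3 S c H r) ∧
      ∃ σ : Fin n → W → W, ∀ w u, H.Adj w u → ∃ i, σ i w = u := by
  choose f hf using hB
  have h0 : ∀ w, IsStep S H w (fun i => f w (S.gen i)) := by
    intro w
    have h := (hf w).isStep hH (g := 1) (by rw [SimpleGraph.dist_self]; omega)
    rw [(hf w).root] at h
    simpa only [mul_one] using h
  refine ⟨?_, fun i w => f w (S.gen i), fun w u h => ((h0 w).2.1 u).1 h⟩
  set σ : Fin n → W → W := fun i w => f w (S.gen i) with hσ
  -- words of bounded length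
  have hw : ∀ (u : List (Fin 3)), u.length ≤ r → ∀ w,
      f w (S.ev (u.map c)) = u.foldr (fun i x => σ (c i) x) w := by
    intro u
    induction u with
    | nil => intro _ w; exact (hf w).root
    | cons i u ih =>
      intro hu w
      rw [List.length_cons] at hu
      have h1 := (hf w).isStep hH (g := S.ev (u.map c)) (by
        have := S.dist_ev (u.map c)
        rw [List.length_map] at this
        omega)
      have h3 := uniqAt hr h1 (h0 (f w (S.ev (u.map c)))) i
      rw [List.map_cons, S.ev_cons, List.foldr_cons, ← ih (by omega)]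
      exact h3
  have hσσ : ∀ i w, σ (c (jv i)) (σ (c i) w) = w := by
    intro i w
    have h1 := hw [jv i, i] (by simpa using h2) w
    have h3 : S.ev ([jv i, i].map c) = 1 := by
      rw [List.map_cons, List.map_cons, List.map_nil, S.ev_cons, S.ev_cons, S.ev_nil, mul_one,
        ← hc, S.hiv, inv_mul_cancel]
    rw [h3, (hf w).root] at h1
    exact h1.symm
  let P : Fin 3 → Equiv.Perm W := fun i =>
    ⟨σ (c i), σ (c (jv i)), hσσ i, fun w => by
      have := hσσ (jv i) w
      rwa [hjv] at this⟩
  have hP : ∀ (u : List (Fin 3)) (w : W), (u.map P).prod w = u.foldr (fun i x => σ (c i) x) w := by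
    intro u w
    induction u with
    | nil => rfl
    | cons i u ih =>
      rw [List.map_cons, List.prod_cons, Equiv.Perm.mul_apply, ih, List.foldr_cons]
      rfl
  refine ⟨⟨P, ?_, ?_⟩⟩
  · intro u v hu hv huv
    ext w
    rw [hP, hP, ← hw u hu, ← hw v hv, huv]
  · intro u w hu he
    rw [hP, ← hw u hu] at he
    have h1 : f w (S.ev (u.map c)) = f w 1 := by rw [he, (hf w).root]
    apply (hf w).inj _ _ _ _ h1
    · exact (S.dist_ev _).trans (by rw [List.length_map]; exact hu)
    · rw [SimpleGraph.dist_self]; exact Nat.zero_le _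

/-- vertices reached by words of bounded length -/
def Xs (σ : Fin n → W → W) (w : W) (D : ℕ) : Set W :=
  {v | ∃ u : List (Fin n), u.length ≤ D ∧ u.foldr (fun i x => σ i x) w = v}

lemma Xs_card (σ : Fin n → W → W) (w : W) (D : ℕ) :
    (Xs σ w D).Finite ∧ (Xs σ w D).ncard ≤ (n + 1) ^ D := by
  induction D with
  | zero =>
    have : Xs σ w 0 ⊆ {w} := by
      rintro v ⟨u, hu, rfl⟩
      have : u = [] := List.length_eq_zero_iff.1 (by omega)
      rw [this]; rfl
    refine ⟨(Set.finite_singleton w).subset this, ?_⟩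
    exact (Set.ncard_le_ncard this (Set.finite_singleton w)).trans (by rw [Set.ncard_singleton]; simp)
  | succ D ih =>
    obtain ⟨h1, h2⟩ := ih
    have hsub : Xs σ w (D + 1) ⊆ Xs σ w D ∪ ⋃ i ∈ (Finset.univ : Finset (Fin n)), σ i '' Xs σ w D := by
      rintro v ⟨u, hu, rfl⟩
      cases u with
      | nil => exact Or.inl ⟨[], Nat.zero_le _, rfl⟩
      | cons i u =>
        right
        rw [Set.mem_iUnion₂]
        refine ⟨i, Finset.mem_univ i, _, ⟨u, ?_, rfl⟩, rfl⟩
        rw [List.length_cons] at hu; omega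
    have hU : (⋃ i ∈ (Finset.univ : Finset (Fin n)), σ i '' Xs σ w D).Finite :=
      Set.Finite.biUnion (Finset.finite_toSet _) (fun i _ => h1.image _)
    have hfin := h1.union hU
    refine ⟨hfin.subset hsub, (Set.ncard_le_ncard hsub hfin).trans ?_⟩
    refine (Set.ncard_union_le _ _).trans ?_
    have h3 : ∀ t : Finset (Fin n), (⋃ i ∈ t, σ i '' Xs σ w D).ncard ≤ t.card * (n + 1) ^ D := by
      intro t
      induction t using Finset.induction_on with
      | empty => simp
      | insert i t hi iht =>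
        rw [Finset.set_biUnion_insert, Finset.card_insert_of_notMem hi, add_mul, one_mul]
        refine (Set.ncard_union_le _ _).trans ?_
        have h5 := (Set.ncard_image_le (f := σ i) h1).trans h2
        have h6 := Nat.add_le_add iht h5
        rw [add_comm]
        exact h6
    have h4 := h3 Finset.univ
    rw [Finset.card_univ, Fintype.card_fin] at h4
    calc (Xs σ w D).ncard + (⋃ i ∈ (Finset.univ : Finset (Fin n)), σ i '' Xs σ w D).ncard
        ≤ (n + 1) ^ D + n * (n + 1) ^ D := Nat.add_le_add h2 h4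
      _ = (n + 1) ^ (D + 1) := by ring

lemma walk_word {σ : Fin n → W → W} (hσ : ∀ w u, H.Adj w u → ∃ i, σ i w = u) {x y : W}
    (p : H.Walk x y) : ∃ u : List (Fin n), u.length = p.length ∧
      u.foldr (fun i x => σ i x) x = y := by
  induction p with
  | nil => exact ⟨[], rfl, rfl⟩
  | @cons x z y h p ih =>
    obtain ⟨u, h1, h2⟩ := ih
    obtain ⟨i, hi⟩ := hσ x z h
    refine ⟨u ++ [i], ?_, ?_⟩
    · rw [List.length_append, List.length_singleton, SimpleGraph.Walk.length_cons, h1]
    · rw [List.foldr_append, List.foldr_cons, List.foldr_nil, hi, h2]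

lemma card_le {σ : Fin n → W → W} (hσ : ∀ w u, H.Adj w u → ∃ i, σ i w = u) (hH : H.Connected)
    {D : ℕ} (hD : H.ediam ≤ D) : Finite W ∧ Nat.card W ≤ (n + 1) ^ D := by
  obtain ⟨w⟩ := hH.nonempty
  have huniv : Xs σ w D = Set.univ := by
    rw [Set.eq_univ_iff_forall]
    intro v
    obtain ⟨p, hp⟩ := hH.exists_walk_length_eq_dist w v
    obtain ⟨u, h1, h2⟩ := walk_word hσ p
    refine ⟨u, ?_, h2⟩
    rw [h1, hp]
    have h3 : H.edist w v ≤ D := SimpleGraph.edist_le_ediam.trans hD
    rw [← (hH w v).coe_dist_eq_edist] at h3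
    exact_mod_cast h3
  obtain ⟨h1, h2⟩ := Xs_card σ w D
  rw [huniv] at h1 h2
  refine ⟨Set.finite_univ_iff.1 h1, ?_⟩
  rwa [Set.ncard_univ] at h2

end Local

end Pool.Agent.Y407.LB.Loc
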